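import Mathlib

/-!
MP_623bad_gt, Q2 (negated form): a homeomorphism of the closed disk onto itself such that for every
prescribed triple of angles no sufficiently small triangle with these angles is congruent to its
image.
-/

set_option autoImplicit false

namespace Pool.Agent.Results.MP_623bad_gt.FixedAnglesFail

open Set Metric

/-- The Euclidean plane. -/
abbrev Plane : Type := EuclideanSpace ℝ (Fin 2)

/-- The closed unit disk. -/
abbrev DiskS : Type := closedBall (0 : Plane) 1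

/-! ### One-variable functions -/

noncomputable def u (x : ℝ) : ℝ := x + (1 - x ^ 2) / 4

noncomputable def s (x : ℝ) : ℝ := (3 - x) * (5 - x) / 16

noncomputable def g (x : ℝ) : ℝ := Real.sqrt (s x)

theorem one_sub_u_sq (x : ℝ) : 1 - u x ^ 2 = (1 - x ^ 2) * s x := by
  unfold u s
  ring

theorem s_ge {x : ℝ} (h1 : x ≤ 1) : 1 / 2 ≤ s x := by
  unfold s
  nlinarith

theorem s_le {x : ℝ} (h0 : -1 ≤ x) (h1 : x ≤ 1) : s x ≤ 3 / 2 := by
  unfold s
  nlinarith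

theorem g_sq {x : ℝ} (h1 : x ≤ 1) : g x ^ 2 = s x :=
  Real.sq_sqrt (by have := s_ge h1; linarith)

theorem g_pos {x : ℝ} (h1 : x ≤ 1) : 0 < g x :=
  Real.sqrt_pos.2 (by have := s_ge h1; linarith)

theorem g_ge {x : ℝ} (h1 : x ≤ 1) : 7 / 10 ≤ g x := by
  apply Real.le_sqrt_of_sq_le
  have := s_ge h1
  linarith

theorem u_strictMono {x x' : ℝ} (h1' : x' ≤ 1) (h : x < x') : u x < u x' := by
  unfold u
  nlinarith

/-! ### The homeomorphism -/

theorem mem_disk (p : Plane) : p ∈ closedBall (0 : Plane) 1 ↔ p 0 ^ 2 + p 1 ^ 2 ≤ 1 := by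
  rw [mem_closedBall, dist_zero_right, EuclideanSpace.norm_eq, Fin.sum_univ_two,
    Real.sqrt_le_left (by norm_num : (0 : ℝ) ≤ 1)]
  simp only [Real.norm_eq_abs, sq_abs, one_pow]

theorem disk_x (p : DiskS) : -1 ≤ p.1 0 ∧ p.1 0 ≤ 1 := by
  have := (mem_disk p.1).1 p.2
  constructor <;> nlinarith [sq_nonneg (p.1 1)]

theorem disk_y (p : DiskS) : -1 ≤ p.1 1 ∧ p.1 1 ≤ 1 := by
  have := (mem_disk p.1).1 p.2
  constructor <;> nlinarith [sq_nonneg (p.1 0)]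

/-- The underlying map. -/
noncomputable def F (p : Plane) : Plane := !₂[u (p 0), p 1 * g (p 0)]

theorem F_mem (p : DiskS) : F p.1 ∈ closedBall (0 : Plane) 1 := by
  rw [mem_disk]
  have h := (mem_disk p.1).1 p.2
  have hx := disk_x p
  change u (p.1 0) ^ 2 + (p.1 1 * g (p.1 0)) ^ 2 ≤ 1
  rw [mul_pow, g_sq hx.2]
  have h1 := one_sub_u_sq (p.1 0)
  have h2 := s_ge hx.2
  nlinarith

/-- The map of the disk into itself. -/
noncomputable def f (p : DiskS) : DiskS := ⟨F p.1, F_mem p⟩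

theorem f_cont : Continuous f := by
  apply Continuous.subtype_mk
  unfold F u g s
  fun_prop

theorem u_surj {X : ℝ} (h0 : -1 ≤ X) (h1 : X ≤ 1) : ∃ x, -1 ≤ x ∧ x ≤ 1 ∧ u x = X := by
  have hc : ContinuousOn u (Icc (-1) 1) := by
    unfold u
    fun_prop
  have h := intermediate_value_Icc (by norm_num : (-1 : ℝ) ≤ 1) hc
  have e1 : u (-1) = -1 := by unfold u; norm_num
  have e2 : u 1 = 1 := by unfold u; norm_num
  rw [e1, e2] at h
  obtain ⟨x, hx, hxX⟩ := h ⟨h0, h1⟩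
  exact ⟨x, hx.1, hx.2, hxX⟩

theorem f_bij : Function.Bijective f := by
  constructor
  · intro p q h
    have h' : F p.1 = F q.1 := congrArg Subtype.val h
    have h0 : u (p.1 0) = u (q.1 0) := congrArg (fun z : Plane => z 0) h'
    have h1 : p.1 1 * g (p.1 0) = q.1 1 * g (q.1 0) := congrArg (fun z : Plane => z 1) h'
    have hx : p.1 0 = q.1 0 := by
      rcases lt_trichotomy (p.1 0) (q.1 0) with hlt | heq | hlt
      · exact absurd h0 (u_strictMono (disk_x q).2 hlt).ne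
      · exact heq
      · exact absurd h0 (u_strictMono (disk_x p).2 hlt).ne'
    rw [hx] at h1
    have hy := mul_right_cancel₀ (g_pos (disk_x q).2).ne' h1
    apply Subtype.ext
    ext i
    fin_cases i
    · exact hx
    · exact hy
  · intro q
    have hq := (mem_disk q.1).1 q.2
    obtain ⟨x, hx0, hx1, hxu⟩ := u_surj (disk_x q).1 (disk_x q).2
    have hg := g_pos hx1
    have hs := one_sub_u_sq x
    rw [hxu, ← g_sq hx1] at hs
    let p : Plane := !₂[x, q.1 1 / g x]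
    have hp : p ∈ closedBall (0 : Plane) 1 := by
      rw [mem_disk]
      change x ^ 2 + (q.1 1 / g x) ^ 2 ≤ 1
      rw [div_pow]
      have : q.1 1 ^ 2 / g x ^ 2 ≤ 1 - x ^ 2 := by
        rw [div_le_iff₀ (by positivity), ← hs]
        linarith
      linarith
    refine ⟨⟨p, hp⟩, ?_⟩
    apply Subtype.ext
    ext i
    fin_cases i
    · exact hxu
    · change q.1 1 / g x * g x = q.1 1
      rw [div_mul_cancel₀ _ hg.ne']

/-- The homeomorphism of the disk onto itself. -/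
noncomputable def T : DiskS ≃ₜ DiskS :=
  Continuous.homeoOfEquivCompactToT2 (f := Equiv.ofBijective f f_bij) f_cont

theorem T_apply (p : DiskS) : T p = f p := rfl

/-! ### First order expansion -/

theorem g_diff {x x' : ℝ} (h0 : -1 ≤ x) (h1 : x ≤ 1) (h0' : -1 ≤ x') (h1' : x' ≤ 1) :
    |g x' - g x| ≤ |x' - x| / 2 := by
  have a := g_ge h1
  have b := g_ge h1'
  have e : (g x' - g x) * (g x' + g x) = (x' - x) * ((x + x' - 8) / 16) := by
    have : (g x' - g x) * (g x' + g x) = g x' ^ 2 - g x ^ 2 := by ring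
    rw [this, g_sq h1, g_sq h1']
    unfold s
    ring
  have e2 : |g x' - g x| * |g x' + g x| = |x' - x| * |(x + x' - 8) / 16| := by
    rw [← abs_mul, e, abs_mul]
  have h3 : |(x + x' - 8) / 16| ≤ 7 / 10 := by
    rw [abs_le]
    constructor <;> linarith
  have h4 : (7 / 5 : ℝ) ≤ |g x' + g x| := by
    rw [abs_of_pos (by linarith)]
    linarith
  have h5 := mul_le_mul_of_nonneg_left h3 (abs_nonneg (x' - x))
  have h6 := mul_le_mul_of_nonneg_left h4 (abs_nonneg (g x' - g x))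
  linarith

/-- The derivative of `g`. -/
noncomputable def m (x : ℝ) : ℝ := (x - 4) / (16 * g x)

theorem m_abs {x : ℝ} (h0 : -1 ≤ x) (h1 : x ≤ 1) : |m x| ≤ 1 / 2 := by
  have a := g_ge h1
  unfold m
  rw [abs_div, abs_of_pos (show (0 : ℝ) < 16 * g x by linarith), div_le_iff₀ (by linarith), abs_le]
  constructor <;> linarith

theorem g_taylor {x x' : ℝ} (h0 : -1 ≤ x) (h1 : x ≤ 1) (h0' : -1 ≤ x') (h1' : x' ≤ 1) :
    |g x' - g x - m x * (x' - x)| ≤ (x' - x) ^ 2 / 4 := by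
  have a := g_ge h1
  have b := g_ge h1'
  have hm := m_abs h0 h1
  have hd := g_diff h0 h1 h0' h1'
  have hgm : 2 * g x * m x = (x - 4) / 8 := by
    unfold m
    field_simp
    ring
  have e : (g x' - g x - m x * (x' - x)) * (g x' + g x) =
      - (m x * (x' - x) * (g x' - g x)) + (x' - x) ^ 2 / 16 := by
    have e1 : (g x' - g x) * (g x' + g x) = g x' ^ 2 - g x ^ 2 := by ring
    rw [g_sq h1, g_sq h1'] at e1
    unfold s at e1
    have : (g x' - g x - m x * (x' - x)) * (g x' + g x) =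
        (g x' - g x) * (g x' + g x) - (2 * g x * m x) * (x' - x) -
          m x * (x' - x) * (g x' - g x) := by ring
    rw [this, e1, hgm]
    ring
  have h2 : |m x * (x' - x) * (g x' - g x)| ≤ (1 / 2) * |x' - x| * (|x' - x| / 2) := by
    rw [abs_mul, abs_mul]
    gcongr
  have h2' : (1 / 2) * |x' - x| * (|x' - x| / 2) = (x' - x) ^ 2 / 4 := by
    rw [← sq_abs (x' - x)]
    ring
  rw [h2'] at h2
  have h3 : |g x' - g x - m x * (x' - x)| * |g x' + g x| ≤ (x' - x) ^ 2 * (5 / 16) := by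
    rw [← abs_mul, e]
    refine (abs_add_le _ _).trans ?_
    rw [abs_neg, abs_of_nonneg (show 0 ≤ (x' - x) ^ 2 / 16 by positivity)]
    linarith
  have h4 : (7 / 5 : ℝ) ≤ |g x' + g x| := by
    rw [abs_of_pos (by linarith)]
    linarith
  have h6 := mul_le_mul_of_nonneg_left h4 (abs_nonneg (g x' - g x - m x * (x' - x)))
  nlinarith [sq_nonneg (x' - x)]

/-- First coordinate of the remainder. -/
theorem rem1 (x x' : ℝ) : |u x' - u x - (1 - x / 2) * (x' - x)| ≤ (x' - x) ^ 2 / 4 := by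
  have : u x' - u x - (1 - x / 2) * (x' - x) = -((x' - x) ^ 2 / 4) := by
    unfold u
    ring
  rw [this, abs_neg, abs_of_nonneg (by positivity)]

theorem rem1' (x x' y y' : ℝ) : |u x' - u x - (1 - x / 2) * (x' - x)| ≤
    ((x' - x) ^ 2 + (y' - y) ^ 2) / 2 := by
  have h1 := rem1 x x'
  have h2 := sq_nonneg (x' - x)
  have h3 := sq_nonneg (y' - y)
  linarith

/-- Second coordinate of the remainder. -/
theorem rem2 {x x' y y' : ℝ} (h0 : -1 ≤ x) (h1 : x ≤ 1) (h0' : -1 ≤ x') (h1' : x' ≤ 1)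
    (hy0 : -1 ≤ y) (hy1 : y ≤ 1) :
    |y' * g x' - y * g x - (y * m x * (x' - x) + g x * (y' - y))| ≤
      ((x' - x) ^ 2 + (y' - y) ^ 2) / 2 := by
  have e : y' * g x' - y * g x - (y * m x * (x' - x) + g x * (y' - y)) =
      (y' - y) * (g x' - g x) + y * (g x' - g x - m x * (x' - x)) := by ring
  rw [e]
  have h2 : |(y' - y) * (g x' - g x)| ≤ |y' - y| * (|x' - x| / 2) := by
    rw [abs_mul]
    gcongr
    exact g_diff h0 h1 h0' h1'
  have hy : |y| ≤ 1 := abs_le.2 ⟨hy0, hy1⟩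
  have h3 : |y * (g x' - g x - m x * (x' - x))| ≤ 1 * ((x' - x) ^ 2 / 4) := by
    rw [abs_mul]
    gcongr
    exact g_taylor h0 h1 h0' h1'
  have h4 : |y' - y| * (|x' - x| / 2) ≤ ((x' - x) ^ 2 + (y' - y) ^ 2) / 4 := by
    have := sq_nonneg (|y' - y| - |x' - x|)
    have e1 := sq_abs (y' - y)
    have e2 := sq_abs (x' - x)
    nlinarith
  refine (abs_add_le _ _).trans ?_
  nlinarith [sq_nonneg (y' - y), sq_nonneg (x' - x)]

/-! ### The linear algebra -/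

theorem err_bound {s t E1 E2 A B η : ℝ} (h1 : |E1| ≤ A) (h2 : |E2| ≤ B) (hs : |s| * A ≤ η)
    (ht : |t| * B ≤ η) : |s * E1 + t * E2| ≤ 2 * η := by
  refine (abs_add_le _ _).trans ?_
  rw [abs_mul, abs_mul]
  have := mul_le_mul_of_nonneg_left h1 (abs_nonneg s)
  have := mul_le_mul_of_nonneg_left h2 (abs_nonneg t)
  linarith

/-- The key linear algebra statement, in coordinates. `a`, `b` are two sides of the triangle, `c`,
`d` their images. -/
theorem key {a1 a2 b1 b2 c1 c2 d1 d2 x y η : ℝ} (hx1 : x ≤ 1)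
    (ha : a1 ^ 2 + a2 ^ 2 = c1 ^ 2 + c2 ^ 2) (hb : b1 ^ 2 + b2 ^ 2 = d1 ^ 2 + d2 ^ 2)
    (hab : (a1 - b1) ^ 2 + (a2 - b2) ^ 2 = (c1 - d1) ^ 2 + (c2 - d2) ^ 2)
    (hc1 : |c1 - (1 - x / 2) * a1| ≤ (a1 ^ 2 + a2 ^ 2) / 2)
    (hc2 : |c2 - (y * m x * a1 + g x * a2)| ≤ (a1 ^ 2 + a2 ^ 2) / 2)
    (hd1 : |d1 - (1 - x / 2) * b1| ≤ (b1 ^ 2 + b2 ^ 2) / 2)
    (hd2 : |d2 - (y * m x * b1 + g x * b2)| ≤ (b1 ^ 2 + b2 ^ 2) / 2)
    (hΔ : a1 * b2 - a2 * b1 ≠ 0) (hη : η ≤ 1 / 400)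
    (k1 : |b1 / (a1 * b2 - a2 * b1)| * ((a1 ^ 2 + a2 ^ 2) / 2) ≤ η)
    (k2 : |b2 / (a1 * b2 - a2 * b1)| * ((a1 ^ 2 + a2 ^ 2) / 2) ≤ η)
    (k3 : |a1 / (a1 * b2 - a2 * b1)| * ((b1 ^ 2 + b2 ^ 2) / 2) ≤ η)
    (k4 : |a2 / (a1 * b2 - a2 * b1)| * ((b1 ^ 2 + b2 ^ 2) / 2) ≤ η) : False := by
  set Δ := a1 * b2 - a2 * b1 with hΔdef
  have hdot : a1 * b1 + a2 * b2 = c1 * d1 + c2 * d2 := by linarith
  by_cases hx : x ≤ -(1 / 16)
  · -- the horizontal direction is stretched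
    set s1 := b2 / Δ with hs
    set t1 := -(a2 / Δ) with ht
    have e1 : s1 * a1 + t1 * b1 = 1 := by
      rw [hs, ht]
      field_simp
      rw [hΔdef]
      ring
    have e2 : s1 * a2 + t1 * b2 = 0 := by
      rw [hs, ht]
      ring
    have hW : (s1 * c1 + t1 * d1) ^ 2 + (s1 * c2 + t1 * d2) ^ 2 = 1 := by
      have : (s1 * c1 + t1 * d1) ^ 2 + (s1 * c2 + t1 * d2) ^ 2 =
          s1 ^ 2 * (c1 ^ 2 + c2 ^ 2) + 2 * s1 * t1 * (c1 * d1 + c2 * d2) +
            t1 ^ 2 * (d1 ^ 2 + d2 ^ 2) := by ring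
      rw [this, ← ha, ← hb, ← hdot]
      have : s1 ^ 2 * (a1 ^ 2 + a2 ^ 2) + 2 * s1 * t1 * (a1 * b1 + a2 * b2) +
            t1 ^ 2 * (b1 ^ 2 + b2 ^ 2) = (s1 * a1 + t1 * b1) ^ 2 + (s1 * a2 + t1 * b2) ^ 2 := by
        ring
      rw [this, e1, e2]
      norm_num
    have herr := err_bound hc1 hd1 k2
      (by rw [ht, abs_neg]; exact k4 : |t1| * ((b1 ^ 2 + b2 ^ 2) / 2) ≤ η)
    have e3 : s1 * (c1 - (1 - x / 2) * a1) + t1 * (d1 - (1 - x / 2) * b1) =
        (s1 * c1 + t1 * d1) - (1 - x / 2) := by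
      have : s1 * (c1 - (1 - x / 2) * a1) + t1 * (d1 - (1 - x / 2) * b1) =
        (s1 * c1 + t1 * d1) - (1 - x / 2) * (s1 * a1 + t1 * b1) := by ring
      rw [this, e1, mul_one]
    rw [e3, abs_le] at herr
    nlinarith [sq_nonneg (s1 * c2 + t1 * d2)]
  · -- the vertical direction is contracted
    push Not at hx
    set s1 := -(b1 / Δ) with hs
    set t1 := a1 / Δ with ht
    have e1 : s1 * a1 + t1 * b1 = 0 := by
      rw [hs, ht]
      ring
    have e2 : s1 * a2 + t1 * b2 = 1 := by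
      rw [hs, ht]
      field_simp
      rw [hΔdef]
      ring
    have hW : (s1 * c1 + t1 * d1) ^ 2 + (s1 * c2 + t1 * d2) ^ 2 = 1 := by
      have : (s1 * c1 + t1 * d1) ^ 2 + (s1 * c2 + t1 * d2) ^ 2 =
          s1 ^ 2 * (c1 ^ 2 + c2 ^ 2) + 2 * s1 * t1 * (c1 * d1 + c2 * d2) +
            t1 ^ 2 * (d1 ^ 2 + d2 ^ 2) := by ring
      rw [this, ← ha, ← hb, ← hdot]
      have : s1 ^ 2 * (a1 ^ 2 + a2 ^ 2) + 2 * s1 * t1 * (a1 * b1 + a2 * b2) +
            t1 ^ 2 * (b1 ^ 2 + b2 ^ 2) = (s1 * a1 + t1 * b1) ^ 2 + (s1 * a2 + t1 * b2) ^ 2 := by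
        ring
      rw [this, e1, e2]
      norm_num
    have herr1 := err_bound hc1 hd1 (by rw [hs, abs_neg]; exact k1 : |s1| * _ ≤ η) k3
    have herr2 := err_bound hc2 hd2 (by rw [hs, abs_neg]; exact k1 : |s1| * _ ≤ η) k3
    have e3 : s1 * (c1 - (1 - x / 2) * a1) + t1 * (d1 - (1 - x / 2) * b1) =
        (s1 * c1 + t1 * d1) := by
      have : s1 * (c1 - (1 - x / 2) * a1) + t1 * (d1 - (1 - x / 2) * b1) =
        (s1 * c1 + t1 * d1) - (1 - x / 2) * (s1 * a1 + t1 * b1) := by ring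
      rw [this, e1, mul_zero, sub_zero]
    have e4 : s1 * (c2 - (y * m x * a1 + g x * a2)) + t1 * (d2 - (y * m x * b1 + g x * b2)) =
        (s1 * c2 + t1 * d2) - g x := by
      have : s1 * (c2 - (y * m x * a1 + g x * a2)) + t1 * (d2 - (y * m x * b1 + g x * b2)) =
        (s1 * c2 + t1 * d2) - y * m x * (s1 * a1 + t1 * b1) - g x * (s1 * a2 + t1 * b2) := by ring
      rw [this, e1, e2]
      ring
    rw [e3] at herr1
    rw [e4] at herr2
    have hg := g_pos hx1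
    have hg1 : g x ≤ 985 / 1000 := by
      apply Real.sqrt_le_iff.2
      refine ⟨by norm_num, ?_⟩
      unfold s
      nlinarith
    rw [abs_le] at herr1 herr2
    have h1 : (s1 * c1 + t1 * d1) ^ 2 ≤ (1 / 200) ^ 2 := by
      apply sq_le_sq'
      · linarith
      · linarith
    have h2 : (s1 * c2 + t1 * d2) ^ 2 ≤ (99 / 100) ^ 2 := by
      apply sq_le_sq'
      · linarith
      · linarith
    norm_num at h1 h2
    linarith

/-! ### The theorem -/

theorem dist_sq (p q : Plane) : dist p q ^ 2 = (p 0 - q 0) ^ 2 + (p 1 - q 1) ^ 2 := by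
  rw [EuclideanSpace.dist_eq, Real.sq_sqrt (by positivity), Fin.sum_univ_two]
  simp only [Real.dist_eq, sq_abs]

theorem core {x y x2 y2 x3 y3 A B C σ : ℝ} (x0 : -1 ≤ x) (x1 : x ≤ 1) (y0 : -1 ≤ y) (y1 : y ≤ 1)
    (u0 : -1 ≤ x2) (u1 : x2 ≤ 1) (v0 : -1 ≤ x3) (v1 : x3 ≤ 1) (hA : 0 < A) (hB : 0 < B)
    (hσ : 0 < σ) (hAσ : A < σ / 200) (hBσ : B < σ / 200)
    (q12 : (x2 - x) ^ 2 + (y2 - y) ^ 2 = A ^ 2) (q13 : (x3 - x) ^ 2 + (y3 - y) ^ 2 = B ^ 2)
    (q23 : (x2 - x3) ^ 2 + (y2 - y3) ^ 2 = C ^ 2)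
    (r12 : (u x2 - u x) ^ 2 + (y2 * g x2 - y * g x) ^ 2 = A ^ 2)
    (r13 : (u x3 - u x) ^ 2 + (y3 * g x3 - y * g x) ^ 2 = B ^ 2)
    (r23 : (u x2 - u x3) ^ 2 + (y2 * g x2 - y3 * g x3) ^ 2 = C ^ 2)
    (hΔ : ((x2 - x) * (y3 - y) - (y2 - y) * (x3 - x)) ^ 2 = (σ * (A * B)) ^ 2) : False := by
  have hprod : 0 < σ * (A * B) := by positivity
  have hΔabs : |(x2 - x) * (y3 - y) - (y2 - y) * (x3 - x)| = σ * (A * B) := by
    rw [← abs_of_pos hprod]
    exact (sq_eq_sq_iff_abs_eq_abs _ _).1 hΔ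
  have hΔ0 : (x2 - x) * (y3 - y) - (y2 - y) * (x3 - x) ≠ 0 := by
    intro h
    rw [h, abs_zero] at hΔabs
    exact hprod.ne hΔabs
  have coef : ∀ z A B Δ : ℝ, 0 < A → 0 < B → |Δ| = σ * (A * B) → |z| ≤ B →
      A < σ / 200 → |z / Δ| * (A ^ 2 / 2) ≤ 1 / 400 := by
    intro z A B Δ hA hB hAB hz hAs
    rw [abs_div, hAB, div_mul_eq_mul_div, div_le_iff₀ (by positivity)]
    have h1 : |z| * (A ^ 2 / 2) ≤ B * (A ^ 2 / 2) := by gcongr
    have h2 : B * (A ^ 2 / 2) ≤ 1 / 400 * (σ * (A * B)) := by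
      have : B * (A ^ 2 / 2) = (A * B) / 2 * A := by ring
      rw [this]
      have h3 : (A * B) / 2 * A ≤ (A * B) / 2 * (σ / 200) := by gcongr
      refine h3.trans (le_of_eq ?_)
      ring
    exact h1.trans h2
  have bd : ∀ z w D : ℝ, 0 < D → z ^ 2 + w ^ 2 = D ^ 2 → |z| ≤ D ∧ |w| ≤ D := by
    intro z w D hD h
    constructor
    · apply abs_le_of_sq_le_sq _ hD.le
      nlinarith [sq_nonneg w]
    · apply abs_le_of_sq_le_sq _ hD.le
      nlinarith [sq_nonneg z]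
  obtain ⟨ba1, ba2⟩ := bd _ _ _ hA q12
  obtain ⟨bb1, bb2⟩ := bd _ _ _ hB q13
  have hΔabs' : |(x2 - x) * (y3 - y) - (y2 - y) * (x3 - x)| = σ * (B * A) := by
    rw [hΔabs]
    ring
  refine key (a1 := x2 - x) (a2 := y2 - y) (b1 := x3 - x) (b2 := y3 - y) (c1 := u x2 - u x)
    (c2 := y2 * g x2 - y * g x) (d1 := u x3 - u x)
    (d2 := y3 * g x3 - y * g x) (x := x) (y := y) (η := 1 / 400)
    x1 (by rw [q12, r12]) (by rw [q13, r13]) ?_ ?_ ?_ ?_ ?_ hΔ0 le_rfl ?_ ?_ ?_ ?_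
  · have e1 : (x2 - x - (x3 - x)) ^ 2 + (y2 - y - (y3 - y)) ^ 2 = C ^ 2 := by
      rw [← q23]
      ring
    have e2 : (u x2 - u x - (u x3 - u x)) ^ 2 +
        (y2 * g x2 - y * g x - (y3 * g x3 - y * g x)) ^ 2 = C ^ 2 := by
      rw [← r23]
      ring
    rw [e1, e2]
  · exact rem1' _ _ _ _
  · exact rem2 x0 x1 u0 u1 y0 y1
  · exact rem1' _ _ _ _
  · exact rem2 x0 x1 v0 v1 y0 y1
  · rw [q12]
    exact coef _ _ _ _ hA hB hΔabs bb1 hAσ
  · rw [q12]
    exact coef _ _ _ _ hA hB hΔabs bb2 hAσ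
  · rw [q13]
    exact coef _ _ _ _ hB hA hΔabs' ba1 hBσ
  · rw [q13]
    exact coef _ _ _ _ hB hA hΔabs' ba2 hBσ

theorem dist_T_sq (p q : DiskS) : dist (T p) (T q) ^ 2 =
    (u (p.1 0) - u (q.1 0)) ^ 2 + (p.1 1 * g (p.1 0) - q.1 1 * g (q.1 0)) ^ 2 := by
  rw [Subtype.dist_eq, dist_sq]
  rfl

theorem cross_sq (p q r : Plane) :
    ((q 0 - p 0) * (r 1 - p 1) - (q 1 - p 1) * (r 0 - p 0)) ^ 2 =
      (Real.sin (EuclideanGeometry.angle q p r) * (dist p q * dist p r)) ^ 2 := by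
  have h := InnerProductGeometry.sin_angle_mul_norm_mul_norm (q -ᵥ p) (r -ᵥ p)
  have n2 : ‖q -ᵥ p‖ = dist p q := by
    rw [dist_comm, dist_eq_norm]
    rfl
  have n3 : ‖r -ᵥ p‖ = dist p r := by
    rw [dist_comm, dist_eq_norm]
    rfl
  have ha : EuclideanGeometry.angle q p r = InnerProductGeometry.angle (q -ᵥ p) (r -ᵥ p) := rfl
  rw [ha, ← n2, ← n3, h, Real.sq_sqrt]
  · simp only [PiLp.inner_apply, Fin.sum_univ_two, vsub_eq_sub, PiLp.sub_apply,
      RCLike.inner_apply, conj_trivial]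
    ring
  · exact sub_nonneg.2 (real_inner_mul_inner_self_le _ _)

theorem no_small (α : ℝ) (hα0 : 0 < α) (hα1 : α < Real.pi) (p1 p2 p3 : DiskS) (h12 : p1 ≠ p2)
    (h13 : p1 ≠ p3) (hang : EuclideanGeometry.angle p2.1 p1.1 p3.1 = α)
    (hd2 : dist p1 p2 < Real.sin α / 200) (hd3 : dist p1 p3 < Real.sin α / 200)
    (c12 : dist (T p1) (T p2) = dist p1 p2) (c13 : dist (T p1) (T p3) = dist p1 p3)
    (c23 : dist (T p2) (T p3) = dist p2 p3) : False := by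
  have hsin : 0 < Real.sin α := Real.sin_pos_of_pos_of_lt_pi hα0 hα1
  have hcross := cross_sq p1.1 p2.1 p3.1
  rw [hang] at hcross
  exact core (C := dist p2 p3) (disk_x p1).1 (disk_x p1).2 (disk_y p1).1 (disk_y p1).2
    (disk_x p2).1 (disk_x p2).2 (disk_x p3).1 (disk_x p3).2 (dist_pos.2 h12) (dist_pos.2 h13)
    hsin hd2 hd3 (by rw [dist_comm, Subtype.dist_eq, dist_sq])
    (by rw [dist_comm, Subtype.dist_eq, dist_sq]) (by rw [Subtype.dist_eq, dist_sq])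
    (by rw [← c12, dist_comm, dist_T_sq]) (by rw [← c13, dist_comm, dist_T_sq])
    (by rw [← c23, dist_T_sq]) hcross

/-- The closed unit disk in the Euclidean plane, as a type. -/
def Disk : Type := closedBall (0 : Plane) 1

/-- The disk carries the Euclidean metric. -/
noncomputable instance : MetricSpace Disk :=
  inferInstanceAs (MetricSpace (closedBall (0 : Plane) 1))

/-- The angle at `q` between `p` and `r`. -/
noncomputable def angleAt (p q r : Disk) : ℝ := EuclideanGeometry.angle p.1 q.1 r.1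

/-- The triangle `p₁ p₂ p₃` has pairwise distinct vertices and interior angles `α, β, γ` at
`p₁, p₂, p₃`. -/
structure HasAngles (p₁ p₂ p₃ : Disk) (α β γ : ℝ) : Prop where
  ne₁₂ : p₁ ≠ p₂
  ne₁₃ : p₁ ≠ p₃
  ne₂₃ : p₂ ≠ p₃
  angle₁ : angleAt p₂ p₁ p₃ = α
  angle₂ : angleAt p₁ p₂ p₃ = β
  angle₃ : angleAt p₁ p₃ p₂ = γ

/-- All sides of the triangle `p₁ p₂ p₃` are less than `ε`. -/
structure SidesLT (p₁ p₂ p₃ : Disk) (ε : ℝ) : Prop where
  lt₁₂ : dist p₁ p₂ < ε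
  lt₁₃ : dist p₁ p₃ < ε
  lt₂₃ : dist p₂ p₃ < ε

/-- The triangle `p₁ p₂ p₃` is congruent to its image under `T`. -/
structure CongruentToImage (T : Disk ≃ₜ Disk) (p₁ p₂ p₃ : Disk) : Prop where
  eq₁₂ : dist (T p₁) (T p₂) = dist p₁ p₂
  eq₁₃ : dist (T p₁) (T p₃) = dist p₁ p₃
  eq₂₃ : dist (T p₂) (T p₃) = dist p₂ p₃

/-- There is a homeomorphism `T` of the closed unit disk onto itself such that for all angles
`α, β, γ > 0` with `α + β + γ = π` there is an `ε > 0` such that no triangle with angles `α, β, γ`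
and sides less than `ε` is congruent to its image under `T`. -/
theorem result : ∃ T : Disk ≃ₜ Disk, ∀ α β γ : ℝ, 0 < α → 0 < β → 0 < γ →
    α + β + γ = Real.pi → ∃ ε : ℝ, 0 < ε ∧ ∀ p₁ p₂ p₃ : Disk, HasAngles p₁ p₂ p₃ α β γ →
      SidesLT p₁ p₂ p₃ ε → ¬ CongruentToImage T p₁ p₂ p₃ := by
  refine ⟨(T : DiskS ≃ₜ DiskS), fun α β γ hα hβ hγ hsum => ⟨Real.sin α / 200, ?_, ?_⟩⟩
  · have := Real.sin_pos_of_pos_of_lt_pi hα (by linarith)
    positivity
  · rintro p1 p2 p3 ⟨h12, h13, _, hang, _, _⟩ ⟨hd2, hd3, _⟩ ⟨c12, c13, c23⟩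
    exact no_small α hα (by linarith) p1 p2 p3 h12 h13 hang hd2 hd3 c12 c13 c23

end Pool.Agent.Results.MP_623bad_gt.FixedAnglesFail
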